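import Pool.Agent.Q230.SN.Main
import Pool.Agent.H78R3.TSV.Mem
import Pool.Agent.H612.AR

/-!
# Polynomial time, hardness and membership
-/

set_option autoImplicit false

namespace Pool.Agent.NPC.Q230SN

open Finset Pool.Agent.NPC Pool.Agent.NPC.ER Pool.Agent.H78R3.TSV Pool.Agent.NPC.H670R2
open Pool.Agent.NPC.H78TSV Pool.Agent.Q230.SN Pool.Agent.Q230.QF

section

variable {α : Type} [TEnc α]

theorem poly_slack4 {N r : α → ℕ} (hN : Poly N) (hr : Poly r) :
    Poly (fun a => slack4 (N a) (r a)) := by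
  have h1 := Poly.succ hr
  have h2 : Poly (fun a => N a + 1 + r a) := Poly.add (Poly.succ hN) hr
  exact Poly.pair (Poly.pair (Poly.const 4) (Poly.pair h1 h1))
    (Poly.pair (Poly.pair (Poly.const 4) (Poly.pair h2 h2)) (Poly.const _))

theorem poly_gsys {T : α → List ER.Con} (hT : Poly T) : Poly (fun a => gsys (T a)) := by
  have hV := poly_svars hT
  refine Poly.append ?_ ?_
  · exact Poly.map (F := fun a c => hcon (svars (T a)) c) hT
      (poly_hcon (hV.comp (Poly.fst Poly.id)) (Poly.snd Poly.id))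
  · refine Poly.map (F := fun a r => slack4 (svars (T a)).length r) (UPoly.length hV).range ?_
    exact poly_slack4 ((Poly.length hV).comp (Poly.fst Poly.id)) (Poly.snd Poly.id)

theorem upoly_LK {S : α → List ER.Con} (hS : Poly S) : UPoly (fun a => LK (S a)) :=
  UPoly.add (UPoly.mul (UPoly.const 11) (UPoly.length (poly_bsys hS))) (UPoly.const 7)

theorem poly_chain {L : α → ℕ} (hL : UPoly L) : Poly (fun a => chain (L a)) := by
  refine Poly.map (F := fun _ j => ER.Con.mul (ER.ev j) (ER.ev j) (ER.ev (j + 1))) hL.range ?_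
  exact poly_con_mul (ER.poly_ev (Poly.snd Poly.id)) (ER.poly_ev (Poly.snd Poly.id))
    (ER.poly_ev (Poly.succ (Poly.snd Poly.id)))

theorem poly_tsys {S : α → List ER.Con} (hS : Poly S) : Poly (fun a => tsys (S a)) :=
  Poly.append (poly_bsys hS) (poly_chain (upoly_LK hS))

theorem poly_aix {S : α → List ER.Con} (hS : Poly S) : Poly (fun a => aix (S a)) :=
  poly_ix (poly_svars (poly_tsys hS)) (ER.poly_ev (upoly_LK hS).toPoly)

theorem poly_slices {S : α → List ER.Con} (hS : Poly S) : Poly (fun a => slices (S a)) := by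
  have hT := poly_tsys hS
  exact Poly.append (poly_forms (upoly_hn hT) (poly_gsys hT))
    (Poly.cons (Poly.cons (Poly.pair (Poly.const 1) (Poly.pair (poly_aix hS) (Poly.const 0)))
      (Poly.const [])) (Poly.const []))

theorem poly_instS {S : α → List ER.Con} (hS : Poly S) : Poly (fun a => instS (S a)) := by
  have hT := poly_tsys hS
  have hF := poly_slices hS
  refine Poly.pair (poly_tenL (UPoly.add (upoly_hn hT) (UPoly.length hF)) hF) ?_
  exact poly_intToRat (Poly.natCast (Poly.mul (Poly.const 48) (Poly.length (poly_gsys hT))))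

end

/-- SPECTRAL-NORM-EXCEED is `∃ℝ`-hard. -/
theorem exceed_hard : ERHard (lang SpectralNormExceed) :=
  ERHard.of_sys (poly_instS Poly.id) sat_iff_exceed

theorem not_bound_instS (S : List ER.Con) : Sat S ↔ ¬ SpectralNormBound (instS S) := by
  rw [sat_iff_exceed]
  have h1 : IsCube (instS S).1 := isCube_instS S
  have h2 := instS_pos S
  unfold SpectralNormBound SpectralNormExceed
  constructor
  · rintro ⟨-, -, h⟩ ⟨-, -, h'⟩
    exact absurd h (not_lt.2 h')
  · intro h
    refine ⟨h1, h2, ?_⟩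
    by_contra h3
    exact h ⟨h1, h2, not_lt.1 h3⟩

/-- SPECTRAL-NORM-BOUND is `∀ℝ`-hard. -/
theorem bound_hard : ARHard (lang SpectralNormBound) :=
  ARHard.of_sys (poly_instS Poly.id) not_bound_instS

/-! ### Membership -/

/-- The value of the tensor, as a term. -/
def triT (d : ℕ) : Tm :=
  sumTm ((List.range d).map fun i => sumTm ((List.range d).flatMap fun j =>
    (List.range d).map fun k =>
      Tm.mul (Tm.mul (Tm.mul (Tm.var (vw d i j k)) (Tm.var (4 * i))) (Tm.var (4 * j + 1)))
        (Tm.var (4 * k + 2))))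

theorem eval_triT (d : ℕ) (v : ℕ → ℝ) : (triT d).eval v = ∑ i ∈ range d, ∑ j ∈ range d,
    ∑ k ∈ range d, v (vw d i j k) * v (4 * i) * v (4 * j + 1) * v (4 * k + 2) := by
  unfold triT
  simp only [eval_sumTm, List.map_map, Function.comp_def, sum_flatMap_range, sum_list_range,
    Tm.eval]

/-- The list of the formulas. -/
def fEx (q : List (List (List ℚ)) × ℚ) : List Fm :=
  fU q.1.length 0 :: fU q.1.length 1 :: fU q.1.length 2 ::
    eqRat (Tm.var (vs q.1.length)) q.2 ::
    Fm.lt (Tm.var (vs q.1.length)) (triT q.1.length) :: fEnt q.1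

theorem holds_fEx (q : List (List (List ℚ)) × ℚ) (v : ℕ → ℝ) :
    (∀ φ ∈ fEx q, φ.Holds v) ↔ (fU q.1.length 0).Holds v ∧ (fU q.1.length 1).Holds v ∧
      (fU q.1.length 2).Holds v ∧ (eqRat (Tm.var (vs q.1.length)) q.2).Holds v ∧
      (v (vs q.1.length) < (triT q.1.length).eval v) ∧ (∀ φ ∈ fEnt q.1, φ.Holds v) := by
  unfold fEx
  simp only [List.forall_mem_cons, Fm.Holds, Tm.eval]

/-- The existential part. -/
theorem ex_iff_etr (q : List (List (List ℚ)) × ℚ) :
    Ex q.1.length (fun i j k => ((entry q.1 i j k : ℚ) : ℝ)) (q.2 : ℝ) ↔ ETR (conj (fEx q)) := by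
  unfold ETR
  simp_rw [holds_conj, holds_fEx, holds_fU, holds_fEnt, holds_eqRat, eval_triT]
  set d := q.1.length with hd
  constructor
  · rintro ⟨x, y, z, hx, hy, hz, g⟩
    let v : ℕ → ℝ := fun n => if n % 4 = 0 then x (n / 4) else if n % 4 = 1 then y (n / 4) else
      if n % 4 = 2 then z (n / 4) else
      if n / 4 = d * d * d then (q.2 : ℝ) else
        ((entry q.1 (n / 4 / d / d) (n / 4 / d % d) (n / 4 % d) : ℚ) : ℝ)
    have v0 : ∀ i, v (4 * i) = x i := by
      intro i
      simp only [v]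
      rw [if_pos (by omega)]
      congr 1; omega
    have v0' : ∀ i, v (4 * i + 0) = x i := v0
    have v1 : ∀ i, v (4 * i + 1) = y i := by
      intro i
      simp only [v]
      rw [if_neg (by omega), if_pos (by omega)]
      congr 1; omega
    have v2 : ∀ i, v (4 * i + 2) = z i := by
      intro i
      simp only [v]
      rw [if_neg (by omega), if_neg (by omega), if_pos (by omega)]
      congr 1; omega
    have v3 : v (vs d) = (q.2 : ℝ) := by
      simp only [v, vs]
      rw [if_neg (by omega), if_neg (by omega), if_neg (by omega), if_pos (by omega)]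
    have v4 : ∀ i < d, ∀ j < d, ∀ k < d, v (vw d i j k) = ((entry q.1 i j k : ℚ) : ℝ) := by
      intro i hi j hj k hk
      have e0 : (4 * ((i * d + j) * d + k) + 3) / 4 = (i * d + j) * d + k := by omega
      have hd0 : 0 < d := by omega
      have e1 : ((i * d + j) * d + k) % d = k := by
        rw [Nat.mul_comm, Nat.mul_add_mod, Nat.mod_eq_of_lt hk]
      have e2 : ((i * d + j) * d + k) / d = i * d + j := by
        rw [Nat.mul_comm, Nat.mul_add_div hd0, Nat.div_eq_of_lt hk, Nat.add_zero]
      have e3 : (i * d + j) % d = j := by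
        rw [Nat.mul_comm, Nat.mul_add_mod, Nat.mod_eq_of_lt hj]
      have e4 : (i * d + j) / d = i := by
        rw [Nat.mul_comm, Nat.mul_add_div hd0, Nat.div_eq_of_lt hj, Nat.add_zero]
      have e5 : (i * d + j) * d + k ≠ d * d * d := by
        have h5 : i * d + j < d * d := by
          calc i * d + j < i * d + d := by omega
            _ = (i + 1) * d := by ring
            _ ≤ d * d := Nat.mul_le_mul_right _ hi
        have h6 : (i * d + j) * d + k < d * d * d := by
          calc (i * d + j) * d + k < (i * d + j) * d + d := by omega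
            _ = (i * d + j + 1) * d := by ring
            _ ≤ d * d * d := Nat.mul_le_mul_right _ h5
        omega
      simp only [v, vw]
      rw [if_neg (by omega), if_neg (by omega), if_neg (by omega), e0, if_neg e5, e2, e4, e1, e3]
    refine ⟨v, ?_, ?_, ?_, v3, ?_, v4⟩
    · simp_rw [v0']; exact hx
    · simp_rw [v1]; exact hy
    · simp_rw [v2]; exact hz
    · rw [v3]
      refine g.trans_le (le_of_eq ?_)
      refine Finset.sum_congr rfl fun i hi => Finset.sum_congr rfl fun j hj =>
        Finset.sum_congr rfl fun k hk => ?_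
      rw [v4 i (Finset.mem_range.1 hi) j (Finset.mem_range.1 hj) k (Finset.mem_range.1 hk), v0, v1,
        v2]
  · rintro ⟨v, hx, hy, hz, v3, g, v4⟩
    simp only [Tm.eval] at v3
    refine ⟨fun i => v (4 * i), fun i => v (4 * i + 1), fun i => v (4 * i + 2), hx, hy, hz, ?_⟩
    rw [v3] at g
    refine g.trans_le (le_of_eq ?_)
    refine Finset.sum_congr rfl fun i hi => Finset.sum_congr rfl fun j hj =>
      Finset.sum_congr rfl fun k hk => ?_
    rw [v4 i (Finset.mem_range.1 hi) j (Finset.mem_range.1 hj) k (Finset.mem_range.1 hk)]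

theorem not_etr_of_false {F : Fm} (h : F = H670R2.ff) : ¬ ETR F := by
  rw [h]; exact H670R2.not_etr_ff

/-- The formula for exceeding. -/
def fExceed (q : List (List (List ℚ)) × ℚ) : Fm :=
  bif isCubeB q.1 && isPosB q.2 then conj (fEx q) else H670R2.ff

/-- The formula for the failure of the bound. -/
def fNotBound (q : List (List (List ℚ)) × ℚ) : Fm :=
  bif isCubeB q.1 && isPosB q.2 then conj (fEx q) else H670R2.tt

theorem exceed_iff_etr (q : List (List (List ℚ)) × ℚ) :
    SpectralNormExceed q ↔ ETR (fExceed q) := by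
  rw [exceed_iff_ex]
  unfold fExceed
  by_cases hq : isCubeB q.1 = true ∧ isPosB q.2 = true
  · have hb : (isCubeB q.1 && isPosB q.2) = true := by rw [hq.1, hq.2]; rfl
    rw [hb, cond_true, ← ex_iff_etr]
    have h1 := (isCubeB_iff _).1 hq.1
    have h2 := (isPosB_iff _).1 hq.2
    exact ⟨fun h => h.2.2, fun h => ⟨h1, h2, h⟩⟩
  · have hb : (isCubeB q.1 && isPosB q.2) = false := by
      rw [Bool.eq_false_iff]
      intro h
      exact hq (Bool.and_eq_true_iff.1 h)
    rw [hb, cond_false]
    constructor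
    · rintro ⟨h1, h2, -⟩
      exact absurd ⟨(isCubeB_iff _).2 h1, (isPosB_iff _).2 h2⟩ hq
    · intro h
      exact absurd h H670R2.not_etr_ff

theorem notBound_iff_etr (q : List (List (List ℚ)) × ℚ) :
    ¬ SpectralNormBound q ↔ ETR (fNotBound q) := by
  unfold fNotBound
  by_cases hq : isCubeB q.1 = true ∧ isPosB q.2 = true
  · have hb : (isCubeB q.1 && isPosB q.2) = true := by rw [hq.1, hq.2]; rfl
    rw [hb, cond_true, ← ex_iff_etr]
    have h1 := (isCubeB_iff _).1 hq.1
    have h2 := (isPosB_iff _).1 hq.2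
    rw [← exceed_iff (d := q.1.length) (fun i j k => ((entry q.1 i j k : ℚ) : ℝ))
      (by exact_mod_cast h2)]
    unfold SpectralNormBound
    constructor
    · intro h
      by_contra h3
      exact h ⟨h1, h2, not_lt.1 h3⟩
    · rintro h ⟨-, -, h'⟩
      exact absurd h (not_lt.2 h')
  · have hb : (isCubeB q.1 && isPosB q.2) = false := by
      rw [Bool.eq_false_iff]
      intro h
      exact hq (Bool.and_eq_true_iff.1 h)
    rw [hb, cond_false]
    constructor
    · intro _
      exact ⟨fun _ => 0, H670R2.holds_tt _⟩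
    · rintro - ⟨h1, h2, -⟩
      exact absurd ⟨(isCubeB_iff _).2 h1, (isPosB_iff _).2 h2⟩ hq

section

variable {α : Type} [TEnc α]

theorem poly_triT {d : α → ℕ} (hd : UPoly d) : Poly (fun a => triT (d a)) := by
  refine poly_sumTm (Poly.map (F := fun a i => sumTm ((List.range (d a)).flatMap fun j =>
    (List.range (d a)).map fun k =>
      Tm.mul (Tm.mul (Tm.mul (Tm.var (vw (d a) i j k)) (Tm.var (4 * i))) (Tm.var (4 * j + 1)))
        (Tm.var (4 * k + 2)))) hd.range ?_)
  have a1 : Poly (fun p : α × ℕ => p.1) := Poly.fst Poly.id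
  have e1 : Poly (fun p : ((α × ℕ) × ℕ) × ℕ => p.1.1.1) :=
    Poly.fst (Poly.fst (Poly.fst Poly.id))
  have e2 : Poly (fun p : ((α × ℕ) × ℕ) × ℕ => p.1.1.2) :=
    Poly.snd (Poly.fst (Poly.fst Poly.id))
  have e3 : Poly (fun p : ((α × ℕ) × ℕ) × ℕ => p.1.2) := Poly.snd (Poly.fst Poly.id)
  have e4 : Poly (fun p : ((α × ℕ) × ℕ) × ℕ => p.2) := Poly.snd Poly.id
  refine poly_sum2 (F := fun (p : α × ℕ) j k => Tm.mul (Tm.mul (Tm.mul
    (Tm.var (vw (d p.1) p.2 j k)) (Tm.var (4 * p.2))) (Tm.var (4 * j + 1)))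
    (Tm.var (4 * k + 2))) (hd.comp a1) ?_
  exact poly_tmul (poly_tmul (poly_tmul (poly_tvar (poly_vw (hd.toPoly.comp e1) e2 e3 e4))
    (poly_lin0 e2)) (poly_lin e3 1)) (poly_lin e4 2)

theorem poly_fEx : Poly fEx := by
  have h1 : Poly (fun q : List (List (List ℚ)) × ℚ => q.1) := Poly.fst Poly.id
  have h2 : Poly (fun q : List (List (List ℚ)) × ℚ => q.2) := Poly.snd Poly.id
  have hd : UPoly (fun q : List (List (List ℚ)) × ℚ => q.1.length) := UPoly.length h1
  exact Poly.cons (poly_fU hd 0) (Poly.cons (poly_fU hd 1) (Poly.cons (poly_fU hd 2)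
      (Poly.cons (poly_eqRat (poly_tvar (poly_vs hd.toPoly)) h2)
        (Poly.cons (poly_lt (poly_tvar (poly_vs hd.toPoly)) (poly_triT hd)) (poly_fEnt h1)))))

theorem poly_valid :
    Poly (fun q : List (List (List ℚ)) × ℚ => isCubeB q.1 && isPosB q.2) := by
  have h1 : Poly (fun q : List (List (List ℚ)) × ℚ => q.1) := Poly.fst Poly.id
  have h2 : Poly (fun q : List (List (List ℚ)) × ℚ => q.2) := Poly.snd Poly.id
  have hd : UPoly (fun q : List (List (List ℚ)) × ℚ => q.1.length) := UPoly.length h1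
  refine Poly.and ?_ ?_
  · refine Poly.all (p := fun (q : List (List (List ℚ)) × ℚ) a =>
      decide (a.length = q.1.length) && a.all fun b => decide (b.length = q.1.length)) h1 ?_
    refine Poly.and (Poly.decide_eq (Poly.length (Poly.snd Poly.id))
      (hd.toPoly.comp (Poly.fst Poly.id))) ?_
    refine Poly.all (p := fun (r : (List (List (List ℚ)) × ℚ) × List (List ℚ)) b =>
      decide (b.length = r.1.1.length)) (Poly.snd Poly.id) ?_
    exact Poly.decide_eq (Poly.length (Poly.snd Poly.id))
      (hd.toPoly.comp (Poly.fst (Poly.fst Poly.id)))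
  · exact Poly.and (Poly.not (poly_isNeg (poly_ratNum h2)))
      (Poly.not (Poly.decide_eq (poly_natAbs (poly_ratNum h2)) (Poly.const 0)))

end

/-- SPECTRAL-NORM-EXCEED belongs to `∃ℝ`. -/
theorem exceed_mem : InER (lang SpectralNormExceed) :=
  ER.InER.of_poly (Poly.cond poly_valid (poly_conj poly_fEx) (Poly.const _)) exceed_iff_etr

/-- SPECTRAL-NORM-BOUND belongs to `∀ℝ`. -/
theorem bound_mem : InAR (lang SpectralNormBound) :=
  InAR.of_poly (Poly.cond poly_valid (poly_conj poly_fEx) (Poly.const _)) notBound_iff_etr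

end Pool.Agent.NPC.Q230SN
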