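import Pool.Agent.Q230.QF.Core
import Pool.Agent.Q230.SN.Defs

/-!
# Spectral norms of the tensors of homogeneous quadratic systems
-/

set_option autoImplicit false

namespace Pool.Agent.Q230.SN

open Finset Pool.Agent.NPC Pool.Agent.NPC.ER Pool.Agent.H78R3.TSV Pool.Agent.Q230.QF

/-- A version of exceeding with vectors indexed by all natural numbers. -/
def Ex (d : ℕ) (t : ℕ → ℕ → ℕ → ℝ) (σ : ℝ) : Prop :=
  ∃ x y z : ℕ → ℝ, ∑ i ∈ range d, x i ^ 2 = 1 ∧ ∑ i ∈ range d, y i ^ 2 = 1 ∧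
    ∑ i ∈ range d, z i ^ 2 = 1 ∧
    σ < ∑ i ∈ range d, ∑ j ∈ range d, ∑ k ∈ range d, t i j k * x i * y j * z k

theorem abs_tri_le {d : ℕ} (t : Fin d → Fin d → Fin d → ℝ) {x y z : EuclideanSpace ℝ (Fin d)}
    (hx : ‖x‖ = 1) (hy : ‖y‖ = 1) (hz : ‖z‖ = 1) : |tri t x y z| ≤ ∑ i, ∑ j, ∑ k, |t i j k| := by
  have hc : ∀ (v : EuclideanSpace ℝ (Fin d)) (_ : ‖v‖ = 1) (i : Fin d), |v i| ≤ 1 := by
    intro v hv i
    rw [← hv, ← Real.norm_eq_abs]
    exact PiLp.norm_apply_le v i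
  unfold tri
  refine (Finset.abs_sum_le_sum_abs _ _).trans (Finset.sum_le_sum fun i _ => ?_)
  refine (Finset.abs_sum_le_sum_abs _ _).trans (Finset.sum_le_sum fun j _ => ?_)
  refine (Finset.abs_sum_le_sum_abs _ _).trans (Finset.sum_le_sum fun k _ => ?_)
  rw [abs_mul, abs_mul, abs_mul]
  have h1 := hc x hx i
  have h2 := hc y hy j
  have h3 := hc z hz k
  calc |t i j k| * |x i| * |y j| * |z k| ≤ |t i j k| * 1 * 1 * 1 := by gcongr
    _ = |t i j k| := by ring

theorem lt_spectralNorm_iff {d : ℕ} (t : Fin d → Fin d → Fin d → ℝ) {σ : ℝ} (hσ : 0 < σ) :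
    σ < spectralNorm t ↔ ∃ x y z : EuclideanSpace ℝ (Fin d), ‖x‖ = 1 ∧ ‖y‖ = 1 ∧ ‖z‖ = 1 ∧
      σ < |tri t x y z| := by
  unfold spectralNorm
  set A := {r | ∃ x y z : EuclideanSpace ℝ (Fin d), ‖x‖ = 1 ∧ ‖y‖ = 1 ∧ ‖z‖ = 1 ∧
    r = |tri t x y z|} with hA
  have hb : BddAbove A := ⟨∑ i, ∑ j, ∑ k, |t i j k|, by
    rintro r ⟨x, y, z, hx, hy, hz, rfl⟩
    exact abs_tri_le t hx hy hz⟩
  constructor
  · intro h
    have hne : A.Nonempty := by
      by_contra hcon
      rw [Set.not_nonempty_iff_eq_empty] at hcon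
      rw [hcon, Real.sSup_empty] at h
      linarith
    obtain ⟨r, ⟨x, y, z, hx, hy, hz, rfl⟩, hr⟩ := exists_lt_of_lt_csSup hne h
    exact ⟨x, y, z, hx, hy, hz, hr⟩
  · rintro ⟨x, y, z, hx, hy, hz, h⟩
    exact h.trans_le (le_csSup hb ⟨x, y, z, hx, hy, hz, rfl⟩)

theorem tri_neg {d : ℕ} (t : Fin d → Fin d → Fin d → ℝ) (x y z : EuclideanSpace ℝ (Fin d)) :
    tri t x y (-z) = - tri t x y z := by
  unfold tri
  simp only [PiLp.neg_apply, mul_neg, Finset.sum_neg_distrib]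

theorem exceed_iff {d : ℕ} (t : ℕ → ℕ → ℕ → ℝ) {σ : ℝ} (hσ : 0 < σ) :
    σ < spectralNorm (fun i j k : Fin d => t i j k) ↔ Ex d t σ := by
  rw [lt_spectralNorm_iff _ hσ]
  constructor
  · rintro ⟨x, y, z, hx, hy, hz, h⟩
    obtain ⟨z', hz', h'⟩ : ∃ z' : EuclideanSpace ℝ (Fin d), ‖z'‖ = 1 ∧
        σ < tri (fun i j k : Fin d => t i j k) x y z' := by
      rcases le_or_gt 0 (tri (fun i j k : Fin d => t i j k) x y z) with h0 | h0
      · rw [abs_of_nonneg h0] at h
        exact ⟨z, hz, h⟩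
      · rw [abs_of_neg h0] at h
        exact ⟨-z, by rw [norm_neg, hz], by rw [tri_neg]; exact h⟩
    rw [norm_eq_one_iff] at hx hy hz'
    let X : ℕ → ℝ := fun i => if h : i < d then x ⟨i, h⟩ else 0
    let Y : ℕ → ℝ := fun i => if h : i < d then y ⟨i, h⟩ else 0
    let Z : ℕ → ℝ := fun i => if h : i < d then z' ⟨i, h⟩ else 0
    have eX : ∀ i : Fin d, X i = x i := fun i => by simp [X]
    have eY : ∀ i : Fin d, Y i = y i := fun i => by simp [Y]
    have eZ : ∀ i : Fin d, Z i = z' i := fun i => by simp [Z]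
    refine ⟨X, Y, Z, ?_, ?_, ?_, ?_⟩
    · rw [← Fin.sum_univ_eq_sum_range (fun i => X i ^ 2)]; simpa only [eX] using hx
    · rw [← Fin.sum_univ_eq_sum_range (fun i => Y i ^ 2)]; simpa only [eY] using hy
    · rw [← Fin.sum_univ_eq_sum_range (fun i => Z i ^ 2)]; simpa only [eZ] using hz'
    · rw [← Fin.sum_univ_eq_sum_range (fun i => ∑ j ∈ range d, ∑ k ∈ range d,
        t i j k * X i * Y j * Z k)]
      simp_rw [← Fin.sum_univ_eq_sum_range (fun j => ∑ k ∈ range d, t _ j k * X _ * Y j * Z k)]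
      simp_rw [← Fin.sum_univ_eq_sum_range (fun k => t _ _ k * X _ * Y _ * Z k), eX, eY, eZ]
      exact h'
  · rintro ⟨x, y, z, hx, hy, hz, h⟩
    refine ⟨WithLp.toLp 2 fun i => x i, WithLp.toLp 2 fun i => y i, WithLp.toLp 2 fun i => z i,
      ?_, ?_, ?_, ?_⟩
    · rw [norm_eq_one_iff, ← hx]
      exact Fin.sum_univ_eq_sum_range (fun i => x i ^ 2) d
    · rw [norm_eq_one_iff, ← hy]
      exact Fin.sum_univ_eq_sum_range (fun i => y i ^ 2) d
    · rw [norm_eq_one_iff, ← hz]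
      exact Fin.sum_univ_eq_sum_range (fun i => z i ^ 2) d
    · refine lt_of_lt_of_le ?_ (le_abs_self _)
      rw [← Fin.sum_univ_eq_sum_range (fun i => ∑ j ∈ range d, ∑ k ∈ range d,
        t i j k * x i * y j * z k)] at h
      simp_rw [← Fin.sum_univ_eq_sum_range (fun j => ∑ k ∈ range d, t _ j k * x _ * y j * z k)] at h
      simp_rw [← Fin.sum_univ_eq_sum_range (fun k => t _ _ k * x _ * y _ * z k)] at h
      exact h

/-! ### The slices of the tensor -/

/-- The slices: the forms of the system and the form of `t x₀`. -/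
def slices (S : List ER.Con) : List (List QT) :=
  forms (hn (tsys S)) (gsys (tsys S)) ++ [[((1 : ℤ), aix S, 0)]]

theorem fok_slices (S : List ER.Con) : ∀ f ∈ slices S, FOk (hn (tsys S)) f := by
  intro f hf
  unfold slices at hf
  rw [List.mem_append, List.mem_singleton] at hf
  rcases hf with hf | rfl
  · exact fok_forms (gsys_ok _) f hf
  · intro t ht
    rw [List.mem_singleton] at ht
    subst ht
    exact ⟨aix_lt S, by simp [hn]⟩

theorem S_slices (S : List ER.Con) (x y : ℕ → ℝ) :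
    Pool.Agent.H78R3.TSV.S x y x y (slices S) = 1152 * ((gsys (tsys S)).length : ℝ) ^ 2 *
      ((∑ i ∈ range (hn (tsys S)), x i ^ 2) * (∑ i ∈ range (hn (tsys S)), y i ^ 2) +
        (∑ i ∈ range (hn (tsys S)), x i * y i) ^ 2) -
      ((gsys (tsys S)).length : ℝ) *
        ((gsys (tsys S)).map (fun g => gev x y g * gev x y g)).sum +
      bev x y (aix S, 0) * bev x y (aix S, 0) := by
  unfold slices
  rw [S_append, S_forms x y x y _ _ (gsys_ok _), sum_bev]
  simp only [S_cons, S_nil, fev_cons, fev_nil, tev]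
  have e1 : ∀ v : ℕ → ℝ, ∑ i ∈ range (hn (tsys S)), v i * v i =
      ∑ i ∈ range (hn (tsys S)), v i ^ 2 := fun v => by simp only [sq]
  have e2 : ∑ i ∈ range (hn (tsys S)), y i * x i = ∑ i ∈ range (hn (tsys S)), x i * y i :=
    Finset.sum_congr rfl fun i _ => mul_comm _ _
  rw [e1, e1, e2]
  push_cast
  ring

/-- The value of the tensor. -/
theorem sum_ten {d n : ℕ} {L : List (List QT)} (hL : ∀ f ∈ L, FOk n f) (hnd : n ≤ d)
    (x y z : ℕ → ℝ) : ∑ i ∈ range d, ∑ j ∈ range d, ∑ k ∈ range d,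
      (ten L i j k : ℝ) * x i * y j * z k = ∑ k ∈ range d, fev x y (L.getD k []) * z k := by
  have hFd : ∀ k, FOk d (L.getD k []) := fun k t ht =>
    ⟨(fok_getD hL k t ht).1.trans_le hnd, (fok_getD hL k t ht).2.trans_le hnd⟩
  have e1 : ∀ i, ∑ j ∈ range d, ∑ k ∈ range d, (ten L i j k : ℝ) * x i * y j * z k =
      ∑ k ∈ range d, ∑ j ∈ range d, (ten L i j k : ℝ) * x i * y j * z k := fun i =>
    Finset.sum_comm
  simp_rw [e1]
  rw [Finset.sum_comm]
  refine Finset.sum_congr rfl fun k _ => ?_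
  rw [← sum_cf d _ (hFd k), Finset.sum_mul]
  refine Finset.sum_congr rfl fun i _ => ?_
  rw [Finset.sum_mul]
  rfl

/-! ### The upper bound -/

/-- Small coefficients. -/
def CB (g : QC) : Prop := g.1.1.natAbs + g.2.1.1.natAbs + g.2.2.1.natAbs ≤ 9

theorem gsys_cb (T : List ER.Con) : ∀ g ∈ gsys T, CB g := by
  intro g hg
  unfold gsys at hg
  rw [List.mem_append, List.mem_map, List.mem_map] at hg
  rcases hg with ⟨c, hc, rfl⟩ | ⟨r, hr, rfl⟩
  · cases c <;> simp [CB, hcon]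
  · simp [CB, slack4]

theorem sq_le_of_lt {n i : ℕ} (v : ℕ → ℝ) (hi : i < n) : v i ^ 2 ≤ ∑ i ∈ range n, v i ^ 2 :=
  Finset.single_le_sum (f := fun i => v i ^ 2) (fun i _ => sq_nonneg (v i))
    (Finset.mem_range.2 hi)

theorem abs_bev_le {n : ℕ} (v : ℕ → ℝ) {p : ℕ × ℕ} (h1 : p.1 < n) (h2 : p.2 < n) :
    |bev v v p| ≤ 2 * ∑ i ∈ range n, v i ^ 2 := by
  have e1 := sq_le_of_lt v h1
  have e2 := sq_le_of_lt v h2
  unfold bev
  rw [abs_le]
  constructor
  · nlinarith [sq_nonneg (v p.1 + v p.2)]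
  · nlinarith [sq_nonneg (v p.1 - v p.2)]

theorem abs_gev_le {n : ℕ} (v : ℕ → ℝ) {g : QC} (hg : GOk n g) (hb : CB g) :
    |gev v v g| ≤ 18 * ∑ i ∈ range n, v i ^ 2 := by
  obtain ⟨⟨-, a2, a3⟩, ⟨-, b2, b3⟩, ⟨-, c2, c3⟩⟩ := hg
  have h1 := abs_bev_le v a2 a3
  have h2 := abs_bev_le v b2 b3
  have h3 := abs_bev_le v c2 c3
  set A := ∑ i ∈ range n, v i ^ 2 with hA
  have hA0 : 0 ≤ A := Finset.sum_nonneg fun i _ => sq_nonneg _
  have hb' : |(g.1.1 : ℝ)| + |(g.2.1.1 : ℝ)| + |(g.2.2.1 : ℝ)| ≤ 9 := by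
    unfold CB at hb
    have e : ((g.1.1.natAbs + g.2.1.1.natAbs + g.2.2.1.natAbs : ℕ) : ℝ) ≤ 9 := by exact_mod_cast hb
    push_cast at e
    simpa only [Nat.cast_natAbs, Int.cast_abs] using e
  unfold gev tev
  calc |(g.1.1 : ℝ) * bev v v g.1.2 + (g.2.1.1 : ℝ) * bev v v g.2.1.2 +
        (g.2.2.1 : ℝ) * bev v v g.2.2.2|
      ≤ |(g.1.1 : ℝ) * bev v v g.1.2| + |(g.2.1.1 : ℝ) * bev v v g.2.1.2| +
        |(g.2.2.1 : ℝ) * bev v v g.2.2.2| := abs_add_three _ _ _
    _ = |(g.1.1 : ℝ)| * |bev v v g.1.2| + |(g.2.1.1 : ℝ)| * |bev v v g.2.1.2| +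
        |(g.2.2.1 : ℝ)| * |bev v v g.2.2.2| := by rw [abs_mul, abs_mul, abs_mul]
    _ ≤ |(g.1.1 : ℝ)| * (2 * A) + |(g.2.1.1 : ℝ)| * (2 * A) + |(g.2.2.1 : ℝ)| * (2 * A) := by
        gcongr
    _ = (|(g.1.1 : ℝ)| + |(g.2.1.1 : ℝ)| + |(g.2.2.1 : ℝ)|) * (2 * A) := by ring
    _ ≤ 9 * (2 * A) := mul_le_mul_of_nonneg_right hb' (by positivity)
    _ = 18 * A := by ring

theorem bev_polar (P M : ℕ → ℝ) (p : ℕ × ℕ) :
    bev (fun i => P i + M i) (fun i => P i - M i) p = bev P P p - bev M M p := by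
  unfold bev
  ring

theorem gev_polar (P M : ℕ → ℝ) (g : QC) :
    gev (fun i => P i + M i) (fun i => P i - M i) g = gev P P g - gev M M g := by
  unfold gev tev
  rw [bev_polar, bev_polar, bev_polar]
  ring

theorem list_polar {α : Type} (G : List α) (φ ψ : α → ℝ) (c : ℝ)
    (h : ∀ g ∈ G, |φ g * ψ g| ≤ c) :
    (G.map (fun g => φ g * φ g)).sum + (G.map (fun g => ψ g * ψ g)).sum -
      (G.length : ℝ) * (2 * c) ≤ (G.map (fun g => (φ g - ψ g) * (φ g - ψ g))).sum := by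
  induction G with
  | nil => simp
  | cons g G ih =>
    have h1 := ih fun g hg => h g (List.mem_cons_of_mem _ hg)
    have h2 := (abs_le.1 (h g List.mem_cons_self)).2
    simp only [List.map_cons, List.sum_cons, List.length_cons]
    push_cast
    nlinarith

/-- The arithmetic of `core_equal`. -/
theorem core_arith {m p q bP bM SP SM SD : ℝ} (hm : 64 ≤ m) (hp0 : 0 ≤ p) (hq0 : 0 ≤ q)
    (u1 : bP * bP ≤ m * SP) (u2 : bM * bM ≤ m * SM) (hbb : |bP * bM| ≤ 4 * (p * q))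
    (hsum : SP + SM - m * (2 * (324 * (p * q))) ≤ SD) :
    (bP - bM) ^ 2 ≤ m * SD + 4608 * m ^ 2 * (p * q) := by
  have hpq : 0 ≤ p * q := mul_nonneg hp0 hq0
  have hm0 : 0 < m := by linarith
  have h5 := mul_le_mul_of_nonneg_left hsum hm0.le
  have h6 := (abs_le.1 hbb).1
  have h7 : m * (m * (648 * (p * q))) + 8 * (p * q) ≤ 4608 * m ^ 2 * (p * q) := by
    have h8 : (m * m * 648 + 8) * (p * q) ≤ (4608 * m ^ 2) * (p * q) := by
      apply mul_le_mul_of_nonneg_right _ hpq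
      nlinarith
    linarith
  nlinarith

/-- The inequality for vectors of equal norm. -/
theorem core_equal {G : List QC} {n : ℕ} {a : ℕ × ℕ} (hm : (64 : ℝ) ≤ (G.length : ℝ))
    (hu : ∀ v : ℕ → ℝ, bev v v a * bev v v a ≤
      (G.length : ℝ) * (G.map (fun g => gev v v g * gev v v g)).sum)
    (hG : ∀ g ∈ G, GOk n g) (hB : ∀ g ∈ G, CB g) (h1 : a.1 < n) (h2 : a.2 < n) (P M : ℕ → ℝ) :
    bev (fun i => P i + M i) (fun i => P i - M i) a ^ 2 ≤
      (G.length : ℝ) * (G.map (fun g =>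
        gev (fun i => P i + M i) (fun i => P i - M i) g *
        gev (fun i => P i + M i) (fun i => P i - M i) g)).sum +
      4608 * (G.length : ℝ) ^ 2 *
        ((∑ i ∈ range n, P i ^ 2) * (∑ i ∈ range n, M i ^ 2)) := by
  have b1 := abs_bev_le P h1 h2
  have b2 := abs_bev_le M h1 h2
  have g1 := fun g hg => abs_gev_le P (hG g hg) (hB g hg)
  have g2 := fun g hg => abs_gev_le M (hG g hg) (hB g hg)
  have hp0 : 0 ≤ ∑ i ∈ range n, P i ^ 2 := Finset.sum_nonneg fun i _ => sq_nonneg _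
  have hq0 : 0 ≤ ∑ i ∈ range n, M i ^ 2 := Finset.sum_nonneg fun i _ => sq_nonneg _
  generalize ∑ i ∈ range n, P i ^ 2 = p at *
  generalize ∑ i ∈ range n, M i ^ 2 = q at *
  have hbb : |bev P P a * bev M M a| ≤ 4 * (p * q) := by
    rw [abs_mul]
    calc |bev P P a| * |bev M M a| ≤ (2 * p) * (2 * q) :=
          mul_le_mul b1 b2 (abs_nonneg _) (by linarith)
      _ = 4 * (p * q) := by ring
  have hsum := list_polar G (fun g => gev P P g) (fun g => gev M M g) (324 * (p * q))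
    (fun g hg => by
      rw [abs_mul]
      calc |gev P P g| * |gev M M g| ≤ (18 * p) * (18 * q) :=
            mul_le_mul (g1 g hg) (g2 g hg) (abs_nonneg _) (by linarith)
        _ = 324 * (p * q) := by ring)
  rw [bev_polar]
  simp only [gev_polar]
  exact core_arith hm hp0 hq0 (hu P) (hu M) hbb hsum

theorem bev_scale {s : ℝ} (hs : s ≠ 0) (x y : ℕ → ℝ) (p : ℕ × ℕ) :
    bev (fun i => s * x i) (fun i => y i / s) p = bev x y p := by
  unfold bev
  field_simp

theorem gev_scale {s : ℝ} (hs : s ≠ 0) (x y : ℕ → ℝ) (g : QC) :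
    gev (fun i => s * x i) (fun i => y i / s) g = gev x y g := by
  unfold gev tev
  rw [bev_scale hs, bev_scale hs, bev_scale hs]

theorem bev_zero_left {n : ℕ} {x y : ℕ → ℝ} (h : ∑ i ∈ range n, x i ^ 2 = 0) {p : ℕ × ℕ}
    (h1 : p.1 < n) (h2 : p.2 < n) : bev x y p = 0 := by
  have hz : ∀ i < n, x i = 0 := by
    intro i hi
    have := (Finset.sum_eq_zero_iff_of_nonneg (fun i _ => sq_nonneg (x i))).1 h i
      (Finset.mem_range.2 hi)
    exact pow_eq_zero_iff (two_ne_zero) |>.1 this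
  unfold bev
  rw [hz _ h1, hz _ h2]
  ring

theorem bev_comm (x y : ℕ → ℝ) (p : ℕ × ℕ) : bev x y p = bev y x p := by
  unfold bev
  ring

/-- The inequality for arbitrary vectors. -/
theorem core_general {G : List QC} {n : ℕ} {a : ℕ × ℕ} (hm : (64 : ℝ) ≤ (G.length : ℝ))
    (hu : ∀ v : ℕ → ℝ, bev v v a * bev v v a ≤
      (G.length : ℝ) * (G.map (fun g => gev v v g * gev v v g)).sum)
    (hG : ∀ g ∈ G, GOk n g) (hB : ∀ g ∈ G, CB g) (h1 : a.1 < n) (h2 : a.2 < n) (x y : ℕ → ℝ) :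
    bev x y a ^ 2 ≤ (G.length : ℝ) * (G.map (fun g => gev x y g * gev x y g)).sum +
      1152 * (G.length : ℝ) ^ 2 *
        ((∑ i ∈ range n, x i ^ 2) * (∑ i ∈ range n, y i ^ 2) -
          (∑ i ∈ range n, x i * y i) ^ 2) := by
  have hcs := Finset.sum_mul_sq_le_sq_mul_sq (range n) x y
  have hA0 : 0 ≤ ∑ i ∈ range n, x i ^ 2 := Finset.sum_nonneg fun i _ => sq_nonneg _
  have hB0 : 0 ≤ ∑ i ∈ range n, y i ^ 2 := Finset.sum_nonneg fun i _ => sq_nonneg _
  have hQ0 : 0 ≤ (G.map (fun g => gev x y g * gev x y g)).sum := by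
    apply List.sum_nonneg
    intro r hr
    obtain ⟨g, -, rfl⟩ := List.mem_map.1 hr
    exact mul_self_nonneg _
  have hR : 0 ≤ (G.length : ℝ) * (G.map (fun g => gev x y g * gev x y g)).sum +
      1152 * (G.length : ℝ) ^ 2 *
        ((∑ i ∈ range n, x i ^ 2) * (∑ i ∈ range n, y i ^ 2) -
          (∑ i ∈ range n, x i * y i) ^ 2) := by
    have h3 : 0 ≤ (∑ i ∈ range n, x i ^ 2) * (∑ i ∈ range n, y i ^ 2) -
          (∑ i ∈ range n, x i * y i) ^ 2 := by linarith
    positivity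
  rcases eq_or_lt_of_le hA0 with hA | hA
  · rw [bev_zero_left hA.symm h1 h2]
    simpa using hR
  rcases eq_or_lt_of_le hB0 with hB' | hB'
  · rw [bev_comm, bev_zero_left hB'.symm h1 h2]
    simpa using hR
  set A := ∑ i ∈ range n, x i ^ 2 with hAdef
  set B := ∑ i ∈ range n, y i ^ 2 with hBdef
  set C := ∑ i ∈ range n, x i * y i with hCdef
  obtain ⟨s, hs0, hs⟩ : ∃ s : ℝ, 0 < s ∧ s ^ 4 = B / A := by
    have hBA : 0 < B / A := div_pos hB' hA
    refine ⟨Real.sqrt (Real.sqrt (B / A)), Real.sqrt_pos.2 (Real.sqrt_pos.2 hBA), ?_⟩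
    rw [show 4 = 2 * 2 from rfl, pow_mul, Real.sq_sqrt (Real.sqrt_nonneg _),
      Real.sq_sqrt hBA.le]
  have hkey := core_equal hm hu hG hB h1 h2 (fun i => (s * x i + y i / s) / 2)
    (fun i => (s * x i - y i / s) / 2)
  have e1 : (fun i => (s * x i + y i / s) / 2 + (s * x i - y i / s) / 2) = fun i => s * x i := by
    funext i; ring
  have e2 : (fun i => (s * x i + y i / s) / 2 - (s * x i - y i / s) / 2) = fun i => y i / s := by
    funext i; ring
  simp only [e1, e2, bev_scale hs0.ne', gev_scale hs0.ne'] at hkey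
  have hP : ∑ i ∈ range n, ((s * x i + y i / s) / 2) ^ 2 = (s ^ 2 * A + B / s ^ 2 + 2 * C) / 4 := by
    rw [hAdef, hBdef, hCdef, Finset.mul_sum, Finset.mul_sum, Finset.sum_div, ← Finset.sum_add_distrib,
      ← Finset.sum_add_distrib, Finset.sum_div]
    refine Finset.sum_congr rfl fun i _ => ?_
    field_simp
    ring
  have hM : ∑ i ∈ range n, ((s * x i - y i / s) / 2) ^ 2 = (s ^ 2 * A + B / s ^ 2 - 2 * C) / 4 := by
    rw [hAdef, hBdef, hCdef, Finset.mul_sum, Finset.mul_sum, Finset.sum_div, ← Finset.sum_add_distrib,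
      ← Finset.sum_sub_distrib, Finset.sum_div]
    refine Finset.sum_congr rfl fun i _ => ?_
    field_simp
    ring
  rw [hP, hM] at hkey
  have e3 : B / s ^ 2 = s ^ 2 * A := by
    rw [div_eq_iff (by positivity)]
    have : s ^ 2 * A * s ^ 2 = s ^ 4 * A := by ring
    rw [this, hs]
    field_simp
  have e4 : (s ^ 2 * A) ^ 2 = A * B := by
    have : (s ^ 2 * A) ^ 2 = s ^ 4 * A * A := by ring
    rw [this, hs]
    field_simp
  rw [e3] at hkey
  have e5 : (s ^ 2 * A + s ^ 2 * A + 2 * C) / 4 * ((s ^ 2 * A + s ^ 2 * A - 2 * C) / 4) =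
      (A * B - C ^ 2) / 4 := by
    rw [← e4]
    ring
  rw [e5] at hkey
  refine hkey.trans (le_of_eq ?_)
  ring

/-! ### The main equivalence -/

theorem S_eq_sum {d : ℕ} {L : List (List QT)} (hL : L.length ≤ d) (x y : ℕ → ℝ) :
    ∑ k ∈ range d, fev x y (L.getD k []) ^ 2 = Pool.Agent.H78R3.TSV.S x y x y L := by
  have h := sum_getD L hL (fun f => fev x y f * fev x y f) (by simp)
  unfold Pool.Agent.H78R3.TSV.S
  rw [← h]
  exact Finset.sum_congr rfl fun k _ => sq _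

theorem not_ex_of_unsat {S : List ER.Con} (hS : ¬ Sat S) {d : ℕ} (hnd : hn (tsys S) ≤ d)
    (hd : (slices S).length ≤ d) :
    ¬ Ex d (fun i j k => (ten (slices S) i j k : ℝ)) (48 * ((gsys (tsys S)).length : ℝ)) := by
  rintro ⟨x, y, z, hx, hy, hz, h⟩
  have hm : (64 : ℝ) ≤ ((gsys (tsys S)).length : ℝ) := by exact_mod_cast le_length_gsys S
  have hgen := core_general hm (unsat_core hS) (gsys_ok (tsys S)) (gsys_cb _) (aix_lt S)
    (by simp [hn]) x y
  rw [sum_ten (fok_slices S) hnd] at h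
  have h1 := Finset.sum_mul_sq_le_sq_mul_sq (range d) (fun k => fev x y ((slices S).getD k [])) z
  rw [hz, mul_one, S_eq_sum hd, S_slices] at h1
  have hsub : range (hn (tsys S)) ⊆ range d := Finset.range_subset_range.2 hnd
  have ha1 : ∑ i ∈ range (hn (tsys S)), x i ^ 2 ≤ 1 := by
    rw [← hx]
    exact Finset.sum_le_sum_of_subset_of_nonneg hsub (fun _ _ _ => sq_nonneg _)
  have hb1 : ∑ i ∈ range (hn (tsys S)), y i ^ 2 ≤ 1 := by
    rw [← hy]
    exact Finset.sum_le_sum_of_subset_of_nonneg hsub (fun _ _ _ => sq_nonneg _)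
  have ha0 : 0 ≤ ∑ i ∈ range (hn (tsys S)), x i ^ 2 := Finset.sum_nonneg (fun _ _ => sq_nonneg _)
  have hb0 : 0 ≤ ∑ i ∈ range (hn (tsys S)), y i ^ 2 := Finset.sum_nonneg (fun _ _ => sq_nonneg _)
  generalize ∑ i ∈ range (hn (tsys S)), x i ^ 2 = A at *
  generalize ∑ i ∈ range (hn (tsys S)), y i ^ 2 = B at *
  generalize ∑ i ∈ range (hn (tsys S)), x i * y i = C at *
  generalize ((gsys (tsys S)).length : ℝ) = m at *
  generalize ((gsys (tsys S)).map (fun g => gev x y g * gev x y g)).sum = Q at *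
  generalize bev x y (aix S, 0) = b at *
  generalize ∑ k ∈ range d, fev x y ((slices S).getD k []) * z k = V at *
  have hAB : A * B ≤ 1 := by nlinarith
  have h2 : V ^ 2 ≤ (48 * m) ^ 2 := by nlinarith
  have h3 : |V| ≤ |48 * m| := sq_le_sq.1 h2
  rw [abs_of_pos (by linarith : (0 : ℝ) < 48 * m)] at h3
  linarith [le_abs_self V]

theorem bev_congr {n : ℕ} {x y : ℕ → ℝ} (h : ∀ i < n, x i = y i) {p : ℕ × ℕ} (h1 : p.1 < n)
    (h2 : p.2 < n) : bev x x p = bev y y p := by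
  unfold bev
  rw [h _ h1, h _ h2]

theorem gev_congr {n : ℕ} {x y : ℕ → ℝ} (h : ∀ i < n, x i = y i) {g : QC} (hg : GOk n g) :
    gev x x g = gev y y g := by
  obtain ⟨⟨-, a2, a3⟩, ⟨-, b2, b3⟩, ⟨-, c2, c3⟩⟩ := hg
  unfold gev tev
  rw [bev_congr h a2 a3, bev_congr h b2 b3, bev_congr h c2 c3]

theorem ex_of_sat {S : List ER.Con} (hS : Sat S) {d : ℕ} (hnd : hn (tsys S) ≤ d)
    (hd : (slices S).length ≤ d) :
    Ex d (fun i j k => (ten (slices S) i j k : ℝ)) (48 * ((gsys (tsys S)).length : ℝ)) := by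
  obtain ⟨x₀, h0, ha, hg₀⟩ := sat_core hS
  have hm : (64 : ℝ) ≤ ((gsys (tsys S)).length : ℝ) := by exact_mod_cast le_length_gsys S
  have hn0 : 0 < hn (tsys S) := by simp [hn]
  set s := ∑ i ∈ range (hn (tsys S)), x₀ i ^ 2 with hs
  have hs1 : 1 ≤ s := by
    have := sq_le_of_lt x₀ hn0
    rw [h0] at this
    linarith
  have hs0 : 0 < s := by linarith
  have hr : Real.sqrt s ^ 2 = s := Real.sq_sqrt hs0.le
  have hr0 : 0 < Real.sqrt s := Real.sqrt_pos.2 hs0
  let x : ℕ → ℝ := fun i => if i < hn (tsys S) then x₀ i / Real.sqrt s else 0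
  have hxn : ∀ i < hn (tsys S), x i = x₀ i / Real.sqrt s := fun i hi => by simp [x, hi]
  have hxo : ∀ i, hn (tsys S) ≤ i → x i = 0 := fun i hi => by simp [x, not_lt.2 hi]
  have hx : ∑ i ∈ range (hn (tsys S)), x i ^ 2 = 1 := by
    rw [Finset.sum_congr rfl fun i hi => by rw [hxn i (Finset.mem_range.1 hi)]]
    simp_rw [div_pow, hr]
    rw [← Finset.sum_div, ← hs, div_self hs0.ne']
  have hxd : ∑ i ∈ range d, x i ^ 2 = 1 := by
    rw [← hx]
    symm
    apply Finset.sum_subset (Finset.range_subset_range.2 hnd)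
    intro i _ hi
    rw [hxo i (not_lt.1 (fun h => hi (Finset.mem_range.2 h)))]
    ring
  have hg : ∀ g ∈ gsys (tsys S), gev x x g = 0 := by
    intro g hg
    rw [gev_congr hxn (gsys_ok _ g hg)]
    have h1 : gev (fun i => x₀ i / Real.sqrt s) (fun i => x₀ i / Real.sqrt s) g =
        gev x₀ x₀ g / (Real.sqrt s * Real.sqrt s) := by
      unfold gev tev bev
      field_simp
    rw [h1, hg₀ g hg, zero_div]
  have hb : 0 < bev x x (aix S, 0) := by
    rw [bev_congr hxn (aix_lt S) hn0]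
    have h1 : 0 < x₀ (aix S) / Real.sqrt s := div_pos ha hr0
    have h2 : 0 < x₀ 0 / Real.sqrt s := div_pos (by rw [h0]; exact one_pos) hr0
    have h3 := mul_pos h1 h2
    unfold bev
    exact add_pos h3 (by rw [mul_comm]; exact h3)
  have hQ : ((gsys (tsys S)).map (fun g => gev x x g * gev x x g)).sum = 0 := by
    apply List.sum_eq_zero
    intro r hr
    obtain ⟨g, hg', rfl⟩ := List.mem_map.1 hr
    rw [hg g hg', zero_mul]
  have hS1 := S_slices S x x
  have hxx : ∑ i ∈ range (hn (tsys S)), x i * x i = 1 := by rw [← hx]; simp only [sq]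
  rw [hx, hQ, hxx] at hS1
  set R := Pool.Agent.H78R3.TSV.S x x x x (slices S) with hR
  have hR1 : (48 * ((gsys (tsys S)).length : ℝ)) ^ 2 < R := by
    rw [hS1]
    have : 0 < bev x x (aix S, 0) * bev x x (aix S, 0) := mul_pos hb hb
    nlinarith
  have hR0 : 0 < R := lt_of_le_of_lt (sq_nonneg _) hR1
  have hσ : 48 * ((gsys (tsys S)).length : ℝ) < Real.sqrt R := by
    apply Real.lt_sqrt_of_sq_lt
    exact hR1
  have hsR : 0 < Real.sqrt R := Real.sqrt_pos.2 hR0
  refine ⟨x, x, fun k => fev x x ((slices S).getD k []) / Real.sqrt R, hxd, hxd, ?_, ?_⟩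
  · simp_rw [div_pow, Real.sq_sqrt hR0.le]
    rw [← Finset.sum_div, S_eq_sum hd, ← hR, div_self hR0.ne']
  · rw [sum_ten (fok_slices S) hnd]
    have e : ∀ k, fev x x ((slices S).getD k []) * (fev x x ((slices S).getD k []) / Real.sqrt R) =
        fev x x ((slices S).getD k []) ^ 2 / Real.sqrt R := fun k => by ring
    simp_rw [e]
    rw [← Finset.sum_div, S_eq_sum hd, ← hR, lt_div_iff₀ hsR]
    have : R = Real.sqrt R * Real.sqrt R := (Real.mul_self_sqrt hR0.le).symm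
    nlinarith

/-- The dimension of the tensor. -/
def dimS (S : List ER.Con) : ℕ := hn (tsys S) + (slices S).length

/-- The instance of a system: a tensor and a number. -/
def instS (S : List ER.Con) : List (List (List ℚ)) × ℚ :=
  (tenL (dimS S) (slices S), (((48 * (gsys (tsys S)).length : ℕ) : ℤ) : ℚ))

theorem le_dimS1 (S : List ER.Con) : hn (tsys S) ≤ dimS S := Nat.le_add_right _ _

theorem le_dimS2 (S : List ER.Con) : (slices S).length ≤ dimS S := Nat.le_add_left _ _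

theorem instS_fst (S : List ER.Con) : (instS S).1 = tenL (dimS S) (slices S) := by
  simp only [instS]

theorem instS_snd (S : List ER.Con) :
    (instS S).2 = (((48 * (gsys (tsys S)).length : ℕ) : ℤ) : ℚ) := by
  simp only [instS]

theorem instS_pos (S : List ER.Con) : 0 < (instS S).2 := by
  have := le_length_gsys S
  rw [instS_snd]
  exact_mod_cast (by omega : 0 < 48 * (gsys (tsys S)).length)

theorem ex_congr {d : ℕ} {t t' : ℕ → ℕ → ℕ → ℝ} {σ : ℝ}
    (h : ∀ i < d, ∀ j < d, ∀ k < d, t i j k = t' i j k) : Ex d t σ ↔ Ex d t' σ := by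
  have e : ∀ x y z : ℕ → ℝ, ∑ i ∈ range d, ∑ j ∈ range d, ∑ k ∈ range d, t i j k * x i * y j * z k =
      ∑ i ∈ range d, ∑ j ∈ range d, ∑ k ∈ range d, t' i j k * x i * y j * z k := by
    intro x y z
    refine Finset.sum_congr rfl fun i hi => Finset.sum_congr rfl fun j hj =>
      Finset.sum_congr rfl fun k hk => ?_
    rw [h i (Finset.mem_range.1 hi) j (Finset.mem_range.1 hj) k (Finset.mem_range.1 hk)]
  unfold Ex
  simp only [e]

/-- Exceeding, in terms of vectors indexed by all natural numbers. -/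
theorem exceed_iff_ex (q : List (List (List ℚ)) × ℚ) : SpectralNormExceed q ↔
    IsCube q.1 ∧ 0 < q.2 ∧ Ex q.1.length (fun i j k => ((entry q.1 i j k : ℚ) : ℝ)) (q.2 : ℝ) := by
  unfold SpectralNormExceed
  refine and_congr_right fun _ => and_congr_right fun h => ?_
  exact exceed_iff (fun i j k => ((entry q.1 i j k : ℚ) : ℝ)) (by exact_mod_cast h)

theorem isCube_instS (S : List ER.Con) : IsCube (instS S).1 := by
  rw [instS_fst]
  exact isCube_tenL _ _

theorem ex_iff_sat (S : List ER.Con) : Ex (dimS S) (fun i j k => (ten (slices S) i j k : ℝ))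
    (48 * ((gsys (tsys S)).length : ℝ)) ↔ Sat S := by
  constructor
  · intro h
    by_contra hS
    exact not_ex_of_unsat hS (le_dimS1 S) (le_dimS2 S) h
  · intro h
    exact ex_of_sat h (le_dimS1 S) (le_dimS2 S)

/-- **Correctness of the reduction.** -/
theorem sat_iff_exceed (S : List ER.Con) : Sat S ↔ SpectralNormExceed (instS S) := by
  rw [exceed_iff_ex]
  have h3 : (instS S).1.length = dimS S := by
    rw [instS_fst]
    exact length_tenL _ _
  have h4 : (((instS S).2 : ℚ) : ℝ) = 48 * ((gsys (tsys S)).length : ℝ) := by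
    rw [instS_snd]
    push_cast
    ring
  have key : Ex (instS S).1.length (fun i j k => ((entry (instS S).1 i j k : ℚ) : ℝ))
      (((instS S).2 : ℚ) : ℝ) ↔ Ex (dimS S) (fun i j k => (ten (slices S) i j k : ℝ))
        (48 * ((gsys (tsys S)).length : ℝ)) := by
    rw [h3, h4]
    refine ex_congr fun i hi j hj k hk => ?_
    rw [instS_fst, entry_tenL hi hj hk]
    push_cast
    rfl
  rw [key, ex_iff_sat]
  exact ⟨fun h => ⟨isCube_instS S, instS_pos S, h⟩, fun h => h.2.2⟩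

end Pool.Agent.Q230.SN
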